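import Mathlib
import Pool.Agent.Helper25.HL.Goals3

/-!
Packet HL-LG: graph vectors are cheap.
-/

set_option autoImplicit false

open Filter Topology

noncomputable section

namespace Pool.Agent.Helper69.HL

open Pool.Agent.Helper25.HL

lemma sq_le_l1 {ι : Type} [Fintype ι] (z : ι → ℂ) : Pool.Agent.Helper25.HL.sq z ≤ (l1 z) ^ 2 := by
  unfold Pool.Agent.Helper25.HL.sq l1
  exact Finset.sum_sq_le_sq_sum_of_nonneg fun i _ => norm_nonneg _

theorem lg (h : S_RL) : S_LG := by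
  intro p q σ J r hp hr hr8 β
  have hl1 : 0 ≤ l1 β := l1_nn β
  have hterm : ∀ j ∈ Finset.range (J + 1), (4 : ℝ) ^ j / 4 ^ J * (Kj σ r j (Gm σ β)) ^ 2 ≤
      2 * (1 / 2) ^ j * ((l1 β) ^ 2 / 4 ^ J) := by
    intro j hj
    rcases Nat.eq_zero_or_pos j with rfl | hj0
    · have h1 : pq2 (Gm σ β) ≤ 2 * (l1 β) ^ 2 := by
        have h2 := h p q σ hp β
        have h3 := sq_le_l1 β
        have h4 : pq2 (Gm σ β) = Pool.Agent.Helper25.HL.sq (RV σ β) + Pool.Agent.Helper25.HL.sq β := rfl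
        rw [h4]
        linarith
      unfold Kj
      rw [if_pos rfl, Real.sq_sqrt (pq2_nn _)]
      have h4 : (0 : ℝ) < 4 ^ J := by positivity
      rw [pow_zero, pow_zero, mul_one, div_mul_eq_mul_div, one_mul, mul_div_assoc']
      gcongr
    · have hjJ : j ≤ J := by
        have := Finset.mem_range.1 hj
        omega
      unfold Kj
      rw [if_neg (by omega)]
      have h1 := KK_le σ (r j) (Gm σ β) β
      have h2 : pq2 (Gm σ β - Gm σ β) = 0 := by
        rw [sub_self]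
        simp [pq2, Pool.Agent.Helper25.HL.sq]
      rw [h2, zero_add] at h1
      have h3 : KK σ (r j) (Gm σ β) ^ 2 ≤ (l1 β) ^ 2 / r j := by
        calc KK σ (r j) (Gm σ β) ^ 2 ≤ Real.sqrt ((l1 β) ^ 2 / r j) ^ 2 := by
              gcongr
              exact KK_nn _ _ _
          _ = (l1 β) ^ 2 / r j := Real.sq_sqrt (div_nonneg (sq_nonneg _) (hr j).le)
      have h8 := hr8 j hj0 hjJ
      have h5 : (l1 β) ^ 2 / r j ≤ (l1 β) ^ 2 / 8 ^ j := by
        gcongr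
      have h6 : (4 : ℝ) ^ j * ((l1 β) ^ 2 / 8 ^ j) = (1 / 2) ^ j * (l1 β) ^ 2 := by
        have : (8 : ℝ) ^ j = 4 ^ j * 2 ^ j := by rw [← mul_pow]; norm_num
        have h22 : (2 : ℝ) ^ j * (1 / 2) ^ j = 1 := by rw [← mul_pow]; norm_num
        rw [this]
        field_simp
        rw [mul_assoc, h22, mul_one]
      calc (4 : ℝ) ^ j / 4 ^ J * (KK σ (r j) (Gm σ β)) ^ 2
          ≤ (4 : ℝ) ^ j / 4 ^ J * ((l1 β) ^ 2 / 8 ^ j) := by
            gcongr
            exact h3.trans h5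
        _ = (4 : ℝ) ^ j * ((l1 β) ^ 2 / 8 ^ j) / 4 ^ J := by ring
        _ = (1 / 2) ^ j * ((l1 β) ^ 2 / 4 ^ J) := by rw [h6]; ring
        _ ≤ 2 * (1 / 2) ^ j * ((l1 β) ^ 2 / 4 ^ J) := by
            have h9 : 0 ≤ (1 / 2 : ℝ) ^ j * ((l1 β) ^ 2 / 4 ^ J) := by positivity
            linarith
  unfold lnm
  apply Real.sqrt_le_iff.2
  refine ⟨by positivity, ?_⟩
  refine (Finset.sum_le_sum hterm).trans ?_
  rw [← Finset.sum_mul, ← Finset.mul_sum]
  have hg : ∑ j ∈ Finset.range (J + 1), (1 / 2 : ℝ) ^ j ≤ 2 := by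
    have := geom_sum_eq (by norm_num : (1 / 2 : ℝ) ≠ 1) (J + 1)
    rw [this]
    have h0 : (0 : ℝ) ≤ (1 / 2) ^ (J + 1) := by positivity
    rw [div_le_iff_of_neg (by norm_num)]
    linarith
  have h7 : (2 / 2 ^ J * l1 β) ^ 2 = 2 * 2 * ((l1 β) ^ 2 / 4 ^ J) := by
    have : (4 : ℝ) ^ J = (2 ^ J) ^ 2 := by rw [← pow_mul, mul_comm, pow_mul]; norm_num
    rw [this]
    ring
  rw [h7]
  gcongr

end Pool.Agent.Helper69.HL
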